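import Mathlib
import Pool.Agent.Lib.MP_88ff4d_co.NP.LAll
import Pool.Agent.Lib.MP_88ff4d_co.NP.SQ5

set_option autoImplicit false

namespace Pool.Agent.Results.MP_88ff4d_co.LocallyNearPerfect

/-- Let `J` be a set of at least `2000 (k+3)^4` directions and `N` a matching of the hypercube that
leaves in every subcube with directions `J` at most `k` vertices uncovered, as many even as odd.
Every set of edges `M` inside `N` extends to a Hamilton path between any two vertices of opposite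
parity, one of which is not covered by `M`. -/
theorem result (n k : ℕ) (J : Finset (Fin n)) (hn : 2000 * (k + 3) ^ 4 ≤ J.card)
    (G : SimpleGraph (Fin n → ZMod 2)) (hG : ∀ x y, G.Adj x y ↔ hammingDist x y = 1)
    (M N : G.Subgraph) (hN : N.IsMatching) (hMN : M ≤ N)
    (hk : ∀ y : Fin n → ZMod 2, {x | x ∉ N.verts ∧ ∀ i ∉ J, x i = y i}.ncard ≤ k)
    (hb : ∀ y : Fin n → ZMod 2,
      {x | x ∉ N.verts ∧ (∀ i ∉ J, x i = y i) ∧ ∑ i, x i = 0}.ncard =
        {x | x ∉ N.verts ∧ (∀ i ∉ J, x i = y i) ∧ ∑ i, x i = 1}.ncard)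
    (u v : Fin n → ZMod 2) (huv : ∑ i, u i ≠ ∑ i, v i)
    (h : (∀ w, ¬ M.Adj u w) ∨ ∀ w, ¬ M.Adj v w) :
    ∃ p : G.Walk u v, p.IsHamiltonian ∧ ∀ e ∈ M.edgeSet, e ∈ p.edges :=
  Pool.Agent.Lib.MP_88ff4d_co.NP.loc_of Pool.Agent.Lib.MP_88ff4d_co.NP.sq5_st
    n k J hn G hG M N hN hMN hk hb u v huv h

end Pool.Agent.Results.MP_88ff4d_co.LocallyNearPerfect
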