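import Mathlib
import Pool.Agent.Lib.MP_88ff4d_co.NP.Two
import Pool.Agent.Lib.MP_88ff4d_co.NP.SQ5

set_option autoImplicit false

namespace Pool.Agent.Results.MP_88ff4d_co.OneCoveredEnd

/-- If `100 (k+3)^4 ≤ n`, every matching `M` of the hypercube that leaves at most `k` vertices
uncovered and lies in no perfect matching extends to a Hamilton path between covered vertices `u`,
`v` of opposite parity that are not joined by an edge of `M`; for `k ≥ 4` it is assumed that all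
neighbours of `v` are covered (and those of `u` too in case `u`, `v` are adjacent). -/
theorem result (n k : ℕ) (hn : 100 * (k + 3) ^ 4 ≤ n)
    (G : SimpleGraph (Fin n → ZMod 2)) (hG : ∀ x y, G.Adj x y ↔ hammingDist x y = 1)
    (M : G.Subgraph) (hM : M.IsMatching) (hk : M.vertsᶜ.ncard ≤ k)
    (hp : ∀ N : G.Subgraph, N.IsPerfectMatching → ¬ M ≤ N)
    (u v : Fin n → ZMod 2) (huv : ∑ i, u i ≠ ∑ i, v i) (h3 : ¬ M.Adj u v)
    (hu : u ∈ M.verts) (hv : v ∈ M.verts) (hnv : 4 ≤ k → ∀ x, G.Adj v x → x ∈ M.verts)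
    (hnu : 4 ≤ k → G.Adj u v → ∀ x, G.Adj u x → x ∈ M.verts) :
    ∃ p : G.Walk u v, p.IsHamiltonian ∧ ∀ e ∈ M.edgeSet, e ∈ p.edges :=
  Pool.Agent.Lib.MP_88ff4d_co.NP.two_of Pool.Agent.Lib.MP_88ff4d_co.NP.sq5_st
    n k hn G hG M hM hk hp u v huv h3 hu hv
    ((Nat.lt_or_ge k 4).imp Nat.le_of_lt_succ fun c => ⟨hnv c, hnu c⟩)

end Pool.Agent.Results.MP_88ff4d_co.OneCoveredEnd
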