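import Mathlib
import Pool.Agent.Lib.MP_88ff4d_co.Main

set_option autoImplicit false

namespace Pool.Agent.Results.MP_88ff4d_co.SmallMatchings

/-- Every matching of the hypercube with at most `2 ^ a` edges, `32 a + 68 ⌈log_2 n⌉ + 104 ≤ n`,
extends to a Hamilton path between any two vertices of opposite parity it does not join. -/
theorem result (n a : ℕ) (hn : 32 * a + 68 * Nat.clog 2 n + 104 ≤ n)
    (G : SimpleGraph (Fin n → ZMod 2)) (hG : ∀ x y, G.Adj x y ↔ hammingDist x y = 1)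
    (M : G.Subgraph) (hM : M.IsMatching) (hc : M.edgeSet.ncard ≤ 2 ^ a)
    (u v : Fin n → ZMod 2) (huv : ∑ i, u i ≠ ∑ i, v i) (h3 : ¬ M.Adj u v) :
    ∃ p : G.Walk u v, p.IsHamiltonian ∧ ∀ e ∈ M.edgeSet, e ∈ p.edges :=
  Pool.Agent.Lib.MP_88ff4d_co.small_matching n a hn G hG M hM hc u v huv h3

end Pool.Agent.Results.MP_88ff4d_co.SmallMatchings
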